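import Pool.Agent.H286R2.UC.Stubs

set_option autoImplicit false

/-!
From the law inequality to the gains, elements of `J \ T`.
-/

namespace Pool.Agent.H286R2.UC

open Real Finset Pool.Agent.H117R2 Pool.Agent.H117R2.UC

variable {α : Type*} [DecidableEq α]

namespace U13baux

theorem hb_nonneg {x : ℝ} (h0 : 0 ≤ x) (h1 : x ≤ 1) : 0 ≤ hb x :=
  add_nonneg (negMulLog_nonneg h0 h1) (negMulLog_nonneg (by linarith) (by linarith))

theorem nu_le_sqrt {x : ℝ} (h0 : 0 ≤ x) (h1 : x ≤ 1) :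
    nu x ≤ √(191 / 500) * √(x * hb x) := by
  unfold nu
  rw [← Real.sqrt_mul (by norm_num)]
  exact Real.sqrt_le_sqrt (Stub.NN_diag_le h0 h1)

/-- Cauchy-Schwarz in a class -/
theorem class_cs {F : Finset (Finset α)} {T S : Finset α} (hTS : T ⊆ S) (j : α) {A : Finset α}
    (hA : A ∈ F) :
    (∑ B ∈ cl F T A, √(xv F S j B * hb (xv F S j B))) / ((cl F T A).card : ℝ) ≤
      √(xv F T j A * avT hb F T S j A) := by
  have hc : (0 : ℝ) < (cl F T A).card := by exact_mod_cast Stub.cl_card_pos hA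
  have h1 : ∑ B ∈ cl F T A, √(xv F S j B * hb (xv F S j B)) ≤
      √(∑ B ∈ cl F T A, xv F S j B) * √(∑ B ∈ cl F T A, hb (xv F S j B)) := by
    have := Real.sum_sqrt_mul_sqrt_le (cl F T A) (f := fun B => xv F S j B)
      (g := fun B => hb (xv F S j B)) (fun B => Stub.xv_nonneg F S j B)
      (fun B => hb_nonneg (Stub.xv_nonneg F S j B) (Stub.xv_le_one F S j B))
    refine le_trans (le_of_eq ?_) this
    refine Finset.sum_congr rfl fun B _ => ?_
    exact Real.sqrt_mul (Stub.xv_nonneg F S j B) _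
  have h2 := Stub.avT_id hTS j hA
  unfold avT at h2 ⊢
  rw [← h2]
  have hz : 0 ≤ ∑ B ∈ cl F T A, xv F S j B := Finset.sum_nonneg fun B _ => Stub.xv_nonneg F S j B
  have he : 0 ≤ ∑ B ∈ cl F T A, hb (xv F S j B) := Finset.sum_nonneg fun B _ =>
    hb_nonneg (Stub.xv_nonneg F S j B) (Stub.xv_le_one F S j B)
  rw [div_mul_div_comm, Real.sqrt_div (mul_nonneg hz he), Real.sqrt_mul_self hc.le,
    Real.sqrt_mul hz]
  exact div_le_div_of_nonneg_right h1 hc.le

theorem avT_nu_sq {F : Finset (Finset α)} {T S : Finset α} (hTS : T ⊆ S) (j : α) {A : Finset α}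
    (hA : A ∈ F) :
    (avT nu F T S j A) ^ 2 ≤ 191 / 500 * (xv F T j A * avT hb F T S j A) := by
  have hc : (0 : ℝ) < (cl F T A).card := by exact_mod_cast Stub.cl_card_pos hA
  have hη : 0 ≤ avT hb F T S j A := by
    unfold avT
    refine div_nonneg (Finset.sum_nonneg fun B _ => ?_) hc.le
    exact hb_nonneg (Stub.xv_nonneg F S j B) (Stub.xv_le_one F S j B)
  have hzη : 0 ≤ xv F T j A * avT hb F T S j A := mul_nonneg (Stub.xv_nonneg F T j A) hη
  have h0 : 0 ≤ avT nu F T S j A := by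
    unfold avT
    exact div_nonneg (Finset.sum_nonneg fun B _ => Real.sqrt_nonneg _) hc.le
  have h1 : avT nu F T S j A ≤ √(191 / 500) * √(xv F T j A * avT hb F T S j A) := by
    refine le_trans ?_ (mul_le_mul_of_nonneg_left (class_cs hTS j hA) (Real.sqrt_nonneg _))
    rw [mul_div_assoc', Finset.mul_sum]
    unfold avT
    refine div_le_div_of_nonneg_right (Finset.sum_le_sum fun B _ => ?_) hc.le
    exact nu_le_sqrt (Stub.xv_nonneg F S j B) (Stub.xv_le_one F S j B)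
  calc (avT nu F T S j A) ^ 2 ≤ (√(191 / 500) * √(xv F T j A * avT hb F T S j A)) ^ 2 :=
        pow_le_pow_left₀ h0 h1 2
    _ = 191 / 500 * (xv F T j A * avT hb F T S j A) := by
        rw [mul_pow, Real.sq_sqrt (by norm_num), Real.sq_sqrt hzη]

theorem Sg_nu_le {F : Finset (Finset α)} {T S : Finset α} (hTS : T ⊆ S) (j : α) :
    Sg nu F S j ≤ √(191 / 500) * ∑ A ∈ F, √(xv F T j A * avT hb F T S j A) := by
  have h1 : Sg nu F S j ≤ √(191 / 500) * ∑ A ∈ F, √(xv F S j A * hb (xv F S j A)) := by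
    unfold Sg
    rw [Finset.mul_sum]
    exact Finset.sum_le_sum fun A _ => nu_le_sqrt (Stub.xv_nonneg F S j A) (Stub.xv_le_one F S j A)
  refine h1.trans (mul_le_mul_of_nonneg_left ?_ (Real.sqrt_nonneg _))
  rw [← Stub.sum_class F T fun A => √(xv F S j A * hb (xv F S j A))]
  exact Finset.sum_le_sum fun A hA => class_cs hTS j hA

end U13baux

open U13baux

/-- elements of `J \ T` -/
theorem G12_J (F : Finset (Finset α)) (hne : F.Nonempty) {T S : Finset α} (hTS : T ⊆ S) (j : α)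
    (hm : 615 / 1000 * (F.card : ℝ) ≤ M0 F j) (hm2 : (M0 F j : ℝ) ≤ 62 / 100 * F.card)
    (he : 1 / 2 * Sg hb F ∅ j ≤ Sg hb F S j) :
    1 / 10000 * (F.card : ℝ)
      + max 0 (1 - 809 / 500 * ((M0 F j : ℝ) / F.card)) * (2 / 3) * F.card
      - 3 / 20 * ((F.card : ℝ) * log (24 / 25) +
          log (3 / 2) * ∑ A ∈ F, xv F T j A * (1 - xv F T j A))
      ≤ G1 F S j + 3 / 20 * G2 F T S j := by
  have hn : (0 : ℝ) < F.card := by exact_mod_cast hne.card_pos
  set n : ℝ := (F.card : ℝ) with hndef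
  set m : ℝ := (M0 F j : ℝ) / n with hmdef
  set e : ℝ := Sg hb F S j / n with hedef
  have hmn : (M0 F j : ℝ) = m * n := by rw [hmdef]; field_simp
  have hen : Sg hb F S j = e * n := by rw [hedef]; field_simp
  have hm1' : 615 / 1000 ≤ m := by rw [hmdef, le_div_iff₀ hn]; exact hm
  have hm2' : m ≤ 62 / 100 := by rw [hmdef, div_le_iff₀ hn]; exact hm2
  have hS0 : Sg hb F ∅ j = n * hb m := by
    unfold Sg
    rw [Finset.sum_congr rfl fun A _ => by rw [Stub.xv_empty], Finset.sum_const, nsmul_eq_mul]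
  have he1 : 3319 / 10000 ≤ e := by
    rw [hedef, le_div_iff₀ hn]
    refine le_trans ?_ he
    rw [hS0]
    have := Stub.hb_ge hm1' hm2'
    nlinarith
  have he2 : e ≤ 2 / 3 := by
    rw [hedef, div_le_iff₀ hn]
    refine (Stub.Sg_hb_mono F (Finset.empty_subset S) j).trans ?_
    rw [hS0]
    have := Stub.hb_le_two_thirds hm1' hm2'
    nlinarith
  -- the law
  set z : Finset α → ℝ := fun A => xv F T j A with hz
  set η : Finset α → ℝ := fun A => avT hb F T S j A with hη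
  have hz0 : ∀ A ∈ F, 0 ≤ z A := fun A _ => Stub.xv_nonneg F T j A
  have hz1 : ∀ A ∈ F, z A ≤ 1 := fun A _ => Stub.xv_le_one F T j A
  have hη0 : ∀ A ∈ F, 0 ≤ η A := by
    intro A hA
    refine div_nonneg (Finset.sum_nonneg fun B _ => ?_) (Nat.cast_nonneg _)
    exact hb_nonneg (Stub.xv_nonneg F S j B) (Stub.xv_le_one F S j B)
  have hη1 : ∀ A ∈ F, η A ≤ log 2 := by
    intro A hA
    have hc : (0 : ℝ) < (cl F T A).card := by exact_mod_cast Stub.cl_card_pos hA
    show (∑ B ∈ cl F T A, hb (xv F S j B)) / ((cl F T A).card : ℝ) ≤ log 2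
    rw [div_le_iff₀ hc]
    calc ∑ B ∈ cl F T A, hb (xv F S j B) ≤ ∑ _B ∈ cl F T A, log 2 :=
          Finset.sum_le_sum fun B _ => Stub.hb_le_log_two (Stub.xv_nonneg F S j B)
            (Stub.xv_le_one F S j B)
      _ = log 2 * ((cl F T A).card : ℝ) := by
          rw [Finset.sum_const, nsmul_eq_mul, mul_comm]
  have hsz : ∑ A ∈ F, z A = m * F.card := (Stub.sum_xv F T j).trans hmn
  have hsη : ∑ A ∈ F, η A = e * F.card := (Stub.sum_avT hb F T S j).trans hen
  have hlaw := Stub.law_on F hne z η hz0 hz1 hη0 hη1 hsz hsη hm1' hm2' he1 he2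
  rw [← hndef] at hlaw
  -- first gain
  set R : ℝ := ∑ A ∈ F, √(z A * η A) with hR
  have hR0 : 0 ≤ R := Finset.sum_nonneg fun A _ => Real.sqrt_nonneg _
  have hK : (Sg nu F S j) ^ 2 ≤ 191 / 500 * R ^ 2 := by
    have h0 : 0 ≤ Sg nu F S j := Finset.sum_nonneg fun A _ => Real.sqrt_nonneg _
    calc (Sg nu F S j) ^ 2 ≤ (√(191 / 500) * R) ^ 2 := pow_le_pow_left₀ h0 (Sg_nu_le hTS j) 2
      _ = 191 / 500 * R ^ 2 := by rw [mul_pow, Real.sq_sqrt (by norm_num)]
  have hG1 : n * ((2 * m - 1) * e - 191 / 500 * (R / n) ^ 2) ≤ G1 F S j := by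
    unfold G1
    rw [hmn, hen, ← hndef]
    have h1 : (2 * (m * n) * (e * n) - (Sg nu F S j) ^ 2) / n =
        2 * m * e * n - (Sg nu F S j) ^ 2 / n := by field_simp
    have h2 : (Sg nu F S j) ^ 2 / n ≤ 191 / 500 * R ^ 2 / n := div_le_div_of_nonneg_right hK hn.le
    have h3 : n * (191 / 500 * (R / n) ^ 2) = 191 / 500 * R ^ 2 / n := by field_simp
    rw [h1]
    linarith
  -- second gain
  have hG2 : 809 / 500 * ∑ A ∈ F, z A * η A - e * n ≤ G2 F T S j := by
    unfold G2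
    rw [hen, Finset.mul_sum]
    refine sub_le_sub_right (Finset.sum_le_sum fun A hA => ?_) _
    have h1 := avT_nu_sq hTS j hA
    show 809 / 500 * (xv F T j A * avT hb F T S j A) ≤
      2 * xv F T j A * avT hb F T S j A - (avT nu F T S j A) ^ 2
    linarith
  have hvar : ∑ A ∈ F, xv F T j A * (1 - xv F T j A) = n * (m - (∑ A ∈ F, z A ^ 2) / n) := by
    have h1 : ∑ A ∈ F, xv F T j A * (1 - xv F T j A) = ∑ A ∈ F, z A - ∑ A ∈ F, z A ^ 2 := by
      rw [← Finset.sum_sub_distrib]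
      exact Finset.sum_congr rfl fun A _ => by show z A * (1 - z A) = _; ring
    have h4 : n * ((∑ A ∈ F, z A ^ 2) / n) = ∑ A ∈ F, z A ^ 2 := mul_div_cancel₀ _ hn.ne'
    rw [h1, hsz, ← hndef, mul_sub, h4, mul_comm m n]
  rw [hvar]
  have hW : n * ((∑ A ∈ F, z A * η A) / n) = ∑ A ∈ F, z A * η A := by field_simp
  have hlaw' := mul_le_mul_of_nonneg_left hlaw hn.le
  set W : ℝ := (∑ A ∈ F, z A * η A) / n with hWdef
  set Z2 : ℝ := (∑ A ∈ F, z A ^ 2) / n with hZ2
  rw [← hW] at hG2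
  nlinarith [hlaw', hG1, hG2]

end Pool.Agent.H286R2.UC
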